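import Pool.Agent.K3h88.LCM.StmTop

/-!
# Homomorphisms from the fundamental group of a realization and cocycles
-/

set_option autoImplicit false

open unitInterval Finset

namespace Pool.Agent.K3h18.LCM

open Pool.Agent.K3h88.LCM

section grp

open CategoryTheory

variable {𝒢 : Type} [Groupoid.{0} 𝒢] {x0 : 𝒢} (A : ∀ a : 𝒢, x0 ⟶ a) {H : Type} [Group H]
  (ψ : (x0 ⟶ x0) → H)

/-- value of an arrow -/
noncomputable def Ph {a b : 𝒢} (α : a ⟶ b) : H := (ψ (A a ≫ α ≫ Groupoid.inv (A b)))⁻¹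

theorem Ph_comp (hψ : ∀ γ δ, ψ (γ ≫ δ) = ψ δ * ψ γ) {a b c : 𝒢} (α : a ⟶ b) (β : b ⟶ c) :
    Ph A ψ (α ≫ β) = Ph A ψ α * Ph A ψ β := by
  unfold Ph
  rw [← mul_inv_rev, ← hψ]
  congr 2
  simp

theorem Ph_id (hψ : ∀ γ δ, ψ (γ ≫ δ) = ψ δ * ψ γ) (a : 𝒢) : Ph A ψ (𝟙 a) = 1 := by
  have h := Ph_comp A ψ hψ (𝟙 a) (𝟙 a)
  rw [Category.comp_id] at h
  exact left_eq_mul.1 h

theorem eq_one_of_Ph (hψ : ∀ γ δ, ψ (γ ≫ δ) = ψ δ * ψ γ) (γ : x0 ⟶ x0) (h : Ph A ψ γ = 1) :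
    ψ γ = 1 := by
  have h0 : ψ (𝟙 x0) = 1 := by
    have h := hψ (𝟙 x0) (𝟙 x0)
    rw [Category.comp_id] at h
    exact left_eq_mul.1 h
  unfold Ph at h
  have h4 : ψ (Groupoid.inv (A x0)) * ψ (A x0) = 1 := by
    rw [← hψ, ← h0]
    simp
  rw [hψ, hψ, inv_eq_one] at h
  have h5 : ψ (A x0) = (ψ (Groupoid.inv (A x0)))⁻¹ := eq_inv_of_mul_eq_one_right h4
  rw [h5, mul_inv_eq_one] at h
  exact mul_eq_left.1 h

end grp

section pts

variable {V : Type} [DecidableEq V] {S : Finset (Finset V)}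

/-- `x` is a point of the closed simplex `s` -/
def Car (x : V → ℝ) (s : Finset V) : Prop :=
  (∀ v, 0 ≤ x v) ∧ (∀ v, v ∉ s → x v = 0) ∧ ∑ v ∈ s, x v = 1

/-- the coordinates of a vertex -/
def ee (v : V) : V → ℝ := fun w => if w = v then 1 else 0

theorem car_ee {v : V} {s : Finset V} (h : v ∈ s) : Car (ee v) s := by
  refine ⟨fun w => ?_, fun w hw => ?_, ?_⟩
  · unfold ee
    split_ifs <;> norm_num
  · unfold ee
    rw [if_neg]
    rintro rfl
    exact hw h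
  · unfold ee
    rw [Finset.sum_ite_eq' s v]
    simp [h]

omit [DecidableEq V] in
theorem car_comb {x y : V → ℝ} {s : Finset V} (hx : Car x s) (hy : Car y s) (t : I) :
    Car (fun w => (1 - (t : ℝ)) * x w + (t : ℝ) * y w) s := by
  have h0 := t.2.1
  have h1 : 0 ≤ 1 - (t : ℝ) := by
    have := t.2.2
    linarith
  refine ⟨fun w => ?_, fun w hw => ?_, ?_⟩
  · exact add_nonneg (mul_nonneg h1 (hx.1 w)) (mul_nonneg h0 (hy.1 w))
  · simp only [hx.2.1 w hw, hy.2.1 w hw]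
    ring
  · rw [Finset.sum_add_distrib, ← Finset.mul_sum, ← Finset.mul_sum, hx.2.2, hy.2.2]
    ring

/-- a point from coordinates -/
def mkp {x : V → ℝ} (h : ∃ s ∈ S, Car x s) : Rz S :=
  ⟨x, h.elim fun _ hs => hs.2.1, h.elim fun s hs => ⟨s, hs.1, hs.2.2⟩⟩

omit [DecidableEq V] in
theorem car_of (x : Rz S) : ∃ s ∈ S, Car x.1 s := by
  obtain ⟨s, hs, h1, h2⟩ := x.2.2
  exact ⟨s, hs, x.2.1, h1, h2⟩

/-- the vertex `v` -/
def pt (v : V) (h : ∃ s ∈ S, v ∈ s) : Rz S :=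
  mkp (x := ee v) (h.elim fun s hs => ⟨s, hs.1, car_ee hs.2⟩)

/-- the closed star of a vertex -/
def St (v : V) (x : Rz S) : Prop := ∃ s ∈ S, v ∈ s ∧ Car x.1 s

omit [DecidableEq V] in
theorem St.vt {v : V} {x : Rz S} (h : St v x) : ∃ s ∈ S, v ∈ s :=
  h.elim fun s hs => ⟨s, hs.1, hs.2.1⟩

/-- the segment from a point to a vertex -/
def cn (v : V) (hv : ∃ s ∈ S, v ∈ s) (x : Rz S) (hx : St v x) : Path x (pt v hv) where
  toFun t := mkp (x := fun w => (1 - (t : ℝ)) * x.1 w + (t : ℝ) * ee v w)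
    (hx.elim fun s hs => ⟨s, hs.1, car_comb hs.2.2 (car_ee hs.2.1) t⟩)
  continuous_toFun := by
    refine Continuous.subtype_mk ?_ _
    refine continuous_pi fun w => ?_
    fun_prop
  source' := by
    apply Subtype.ext
    funext w
    simp [mkp]
  target' := by
    apply Subtype.ext
    funext w
    simp [mkp, pt]

theorem cn_car (v : V) (hv : ∃ s ∈ S, v ∈ s) (x : Rz S) (hx : St v x) (t : I) {s : Finset V}
    (h1 : Car x.1 s) (h2 : v ∈ s) : Car (cn v hv x hx t).1 s :=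
  car_comb h1 (car_ee h2) t

/-- the homotopy to a vertex of a path in its star -/
def hmt (v : V) (hv : ∃ s ∈ S, v ∈ s) (f : C(I, Rz S)) (hf : ∀ t, St v (f t)) :
    f.Homotopy (ContinuousMap.const I (pt v hv)) where
  toFun p := mkp (x := fun w => (1 - (p.1 : ℝ)) * (f p.2).1 w + (p.1 : ℝ) * ee v w)
    ((hf p.2).elim fun s hs => ⟨s, hs.1, car_comb hs.2.2 (car_ee hs.2.1) p.1⟩)
  continuous_toFun := by
    refine Continuous.subtype_mk ?_ _
    refine continuous_pi fun w => ?_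
    have h1 : Continuous fun p : I × I => (f p.2).1 w :=
      (continuous_apply w).comp (continuous_subtype_val.comp (f.continuous.comp continuous_snd))
    have h2 : Continuous fun p : I × I => ((p.1 : I) : ℝ) := by fun_prop
    exact ((continuous_const.sub h2).mul h1).add (h2.mul continuous_const)
  map_zero_left t := by
    apply Subtype.ext
    funext w
    simp [mkp]
  map_one_left t := by
    apply Subtype.ext
    funext w
    simp [mkp, pt] <;> rfl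

end pts

section main

open CategoryTheory

variable {V : Type} [DecidableEq V] {S : Finset (Finset V)} {H : Type} [Group H] {x0 : Rz S}
  (A : ∀ a : FundamentalGroupoid (Rz S), FundamentalGroupoid.mk x0 ⟶ a)
  (ψ : (FundamentalGroupoid.mk x0 ⟶ FundamentalGroupoid.mk x0) → H)

/-- the value of a path -/
noncomputable def Pp {a b : Rz S} (α : Path a b) : H :=
  Ph A ψ (show FundamentalGroupoid.mk a ⟶ FundamentalGroupoid.mk b from
    Path.Homotopic.Quotient.mk α)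

omit [DecidableEq V] in
theorem Pp_hom {a b : Rz S} {α β : Path a b} (h : α.Homotopic β) : Pp A ψ α = Pp A ψ β := by
  unfold Pp
  rw [Path.Homotopic.Quotient.eq.2 h]

omit [DecidableEq V] in
theorem Pp_trans (hψ : ∀ γ δ, ψ (γ ≫ δ) = ψ δ * ψ γ) {a b c : Rz S} (α : Path a b)
    (β : Path b c) : Pp A ψ (α.trans β) = Pp A ψ α * Pp A ψ β :=
  Ph_comp A ψ hψ (a := FundamentalGroupoid.mk a) (b := FundamentalGroupoid.mk b)
    (c := FundamentalGroupoid.mk c) (Path.Homotopic.Quotient.mk α) (Path.Homotopic.Quotient.mk β)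

omit [DecidableEq V] in
theorem Pp_refl (hψ : ∀ γ δ, ψ (γ ≫ δ) = ψ δ * ψ γ) (a : Rz S) :
    Pp A ψ (Path.refl a) = 1 :=
  Ph_id A ψ hψ (FundamentalGroupoid.mk a)

omit [DecidableEq V] in
theorem Pp_cast {a b a' b' : Rz S} (α : Path a b) (h1 : a' = a) (h2 : b' = b) :
    Pp A ψ (α.cast h1 h2) = Pp A ψ α := by
  subst h1 h2
  rfl

open Classical in
/-- the value of the segment from `x` to the vertex `v` -/
noncomputable def C (v : V) (x : Rz S) : H := if h : St v x then Pp A ψ (cn v h.vt x h) else 1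

theorem C_eq (v : V) (hv : ∃ s ∈ S, v ∈ s) (x : Rz S) (h : St v x) :
    C A ψ v x = Pp A ψ (cn v hv x h) := by
  unfold C
  rw [dif_pos h]

theorem Pp_mul_C (hψ : ∀ γ δ, ψ (γ ≫ δ) = ψ δ * ψ γ) (v : V) {x y : Rz S} (α : Path x y)
    (h : ∀ t, St v (α t)) : Pp A ψ α * C A ψ v y = C A ψ v x := by
  have hv : ∃ s ∈ S, v ∈ s := (h 0).vt
  have h1 := Pp_hom A ψ
    (Path.Homotopic.map_trans_evalAt (hmt v hv α.toContinuousMap h) Path.id)
  rw [Pp_trans A ψ hψ, Pp_trans A ψ hψ] at h1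
  have e1 : Path.id.map (map_continuous α.toContinuousMap) = α.cast α.source α.target := by
    ext t
    rfl
  have e2 : Path.id.map (map_continuous (ContinuousMap.const I (pt v hv))) =
      Path.refl (pt v hv) := by
    ext t
    rfl
  have e3 : ∀ u, (hmt v hv α.toContinuousMap h).evalAt u = cn v hv (α u) (h u) := by
    intro u
    ext t
    rfl
  rw [e1, e3, e3, Pp_cast] at h1
  have h2 : Pp A ψ (cn v hv (α 1) (h 1)) = C A ψ v y := by
    rw [← C_eq A ψ v hv]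
    rw [α.target]
  have h3 : Pp A ψ (cn v hv (α 0) (h 0)) = C A ψ v x := by
    rw [← C_eq A ψ v hv]
    rw [α.source]
  have h4 : Pp A ψ (Path.id.map (map_continuous (ContinuousMap.const I (pt v hv)))) = 1 := by
    rw [e2]
    exact Pp_refl A ψ hψ _
  rw [← h2, ← h3]
  exact h1.trans (mul_eq_left.2 h4)

open Classical in
/-- the cocycle -/
noncomputable def gg (a b : V) : H :=
  if h : ∃ s ∈ S, a ∈ s ∧ b ∈ s then C A ψ b (pt a (h.imp fun _ hs => ⟨hs.1, hs.2.1⟩)) else 1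

theorem gg_eq {s : Finset V} (hs : s ∈ S) {a b : V} (ha : a ∈ s) (hb : b ∈ s)
    (h : ∃ s ∈ S, a ∈ s) : gg A ψ a b = C A ψ b (pt a h) := by
  unfold gg
  rw [dif_pos ⟨s, hs, ha, hb⟩]

theorem st_pt {s : Finset V} (hs : s ∈ S) {a b : V} (ha : a ∈ s) (hb : b ∈ s)
    (h : ∃ s ∈ S, a ∈ s) : St b (pt a h) := ⟨s, hs, hb, car_ee ha⟩

theorem gg_rel (hψ : ∀ γ δ, ψ (γ ≫ δ) = ψ δ * ψ γ) {s : Finset V} (hs : s ∈ S) :
    Rel (gg (S := S) A ψ) s := by
  intro a ha b hb c hc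
  have h0 : ∃ s ∈ S, a ∈ s := ⟨s, hs, ha⟩
  have h1 : ∃ s ∈ S, b ∈ s := ⟨s, hs, hb⟩
  rw [gg_eq A ψ hs ha hb h0, gg_eq A ψ hs hb hc h1, gg_eq A ψ hs ha hc h0,
    C_eq A ψ b h1 _ (st_pt hs ha hb h0)]
  apply Pp_mul_C A ψ hψ
  intro t
  exact ⟨s, hs, hc, cn_car b h1 _ _ t (car_ee ha) hb⟩

omit [DecidableEq V] in
theorem exists_pos (x : Rz S) : ∃ v, 0 < x.1 v := by
  obtain ⟨s, _, h1, h2⟩ := x.2.2
  by_contra hcon
  push Not at hcon
  have : ∑ v ∈ s, x.1 v ≤ 0 := Finset.sum_nonpos fun v _ => hcon v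
  linarith

theorem mem_of_pos {x : Rz S} {s : Finset V} (hx : Car x.1 s) {v : V} (hv : 0 < x.1 v) : v ∈ s := by
  by_contra h
  rw [hx.2.1 v h] at hv
  exact lt_irrefl _ hv

theorem st_of_pos {x : Rz S} {v : V} (hv : 0 < x.1 v) : St v x := by
  obtain ⟨s, hs, h1⟩ := car_of x
  exact ⟨s, hs, mem_of_pos h1 hv, h1⟩

/-- the potential -/
noncomputable def kk (h : V → H) (x : Rz S) : H :=
  h (exists_pos x).choose * (C A ψ (exists_pos x).choose x)⁻¹

theorem kk_eq (hψ : ∀ γ δ, ψ (γ ≫ δ) = ψ δ * ψ γ) (h : V → H)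
    (hh : ∀ s ∈ S, ∀ a ∈ s, ∀ b ∈ s, gg (S := S) A ψ a b = (h a)⁻¹ * h b) (x : Rz S) (v : V)
    (hv : 0 < x.1 v) : kk A ψ h x = h v * (C A ψ v x)⁻¹ := by
  unfold kk
  have hw := (exists_pos x).choose_spec
  generalize (exists_pos x).choose = w at hw ⊢
  obtain ⟨s, hs, h1⟩ := car_of x
  have hvs := mem_of_pos h1 hv
  have hws := mem_of_pos h1 hw
  have h0 : ∃ s ∈ S, v ∈ s := ⟨s, hs, hvs⟩
  have h2 := Pp_mul_C A ψ hψ w (cn v h0 x ⟨s, hs, hvs, h1⟩)
    (fun t => ⟨s, hs, hws, cn_car v h0 _ _ t h1 hvs⟩)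
  rw [← C_eq A ψ v h0 x ⟨s, hs, hvs, h1⟩, ← gg_eq A ψ hs hvs hws h0, hh s hs v hvs w hws] at h2
  rw [← h2]
  group

theorem small (hψ : ∀ γ δ, ψ (γ ≫ δ) = ψ δ * ψ γ) (h : V → H)
    (hh : ∀ s ∈ S, ∀ a ∈ s, ∀ b ∈ s, gg (S := S) A ψ a b = (h a)⁻¹ * h b) {x y : Rz S}
    (α : Path x y) (v : V) (hv : ∀ t, 0 < (α t).1 v) :
    Pp A ψ α = (kk A ψ h x)⁻¹ * kk A ψ h y := by
  have h1 := Pp_mul_C A ψ hψ v α (fun t => st_of_pos (hv t))
  have hx := hv 0
  have hy := hv 1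
  rw [α.source] at hx
  rw [α.target] at hy
  rw [kk_eq A ψ hψ h hh x v hx, kk_eq A ψ hψ h hh y v hy, ← h1]
  group

theorem all_paths (hψ : ∀ γ δ, ψ (γ ≫ δ) = ψ δ * ψ γ) (h : V → H)
    (hh : ∀ s ∈ S, ∀ a ∈ s, ∀ b ∈ s, gg (S := S) A ψ a b = (h a)⁻¹ * h b) {x y : Rz S}
    (α : Path x y) : Pp A ψ α = (kk A ψ h x)⁻¹ * kk A ψ h y := by
  obtain ⟨t, h0, hm, ⟨N, hN⟩, hc⟩ := exists_monotone_Icc_subset_open_cover_unitInterval
    (c := fun v : V => {u : I | 0 < (α u).1 v})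
    (fun v => isOpen_lt continuous_const
      ((continuous_apply v).comp (continuous_subtype_val.comp α.continuous)))
    (fun u _ => Set.mem_iUnion.2 (exists_pos (α u)))
  have key : ∀ n, Pp A ψ (α.subpath 0 (t n)) = (kk A ψ h (α 0))⁻¹ * kk A ψ h (α (t n)) := by
    intro n
    induction n with
    | zero =>
      have : ∀ u : I, u = 0 →
          Pp A ψ (α.subpath 0 u) = (kk A ψ h (α 0))⁻¹ * kk A ψ h (α u) := by
        rintro _ rfl
        rw [Path.subpath_self, Pp_refl A ψ hψ]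
        group
      exact this _ h0
    | succ n ih =>
      have h2 := Pp_hom A ψ ⟨Path.Homotopy.subpathTransSubpath α 0 (t n) (t (n + 1))⟩
      rw [Pp_trans A ψ hψ] at h2
      obtain ⟨v, hv⟩ := hc n
      have h3 := small A ψ hψ h hh (α.subpath (t n) (t (n + 1))) v (by
        intro u
        have h4 : α.subpath (t n) (t (n + 1)) u ∈ Set.range (α.subpath (t n) (t (n + 1))) :=
          ⟨u, rfl⟩
        rw [Path.range_subpath_of_le _ _ _ (hm (Nat.le_succ n))] at h4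
        obtain ⟨w, hw, hw2⟩ := h4
        rw [← hw2]
        exact hv hw)
      rw [← h2, ih, h3]
      group
  have h5 : ∀ u : I, u = 1 → Pp A ψ (α.subpath 0 u) = Pp A ψ α := by
    rintro _ rfl
    rw [Path.subpath_zero_one, Pp_cast]
  have h6 := key N
  rw [h5 _ (hN N le_rfl), hN N le_rfl, α.source, α.target] at h6
  exact h6

end main

section conn

variable {V : Type} [DecidableEq V] {S : Finset (Finset V)}

theorem joined_of_car {s : Finset V} (hs : s ∈ S) {x y : Rz S} (hx : Car x.1 s) (hy : Car y.1 s) :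
    Joined x y := by
  obtain ⟨v, hv⟩ := exists_pos x
  have hvs := mem_of_pos hx hv
  have h0 : ∃ s ∈ S, v ∈ s := ⟨s, hs, hvs⟩
  exact ⟨(cn v h0 x ⟨s, hs, hvs, hx⟩).trans (cn v h0 y ⟨s, hs, hvs, hy⟩).symm⟩

theorem joined (hc : ∀ s ∈ S, ∀ t ∈ S,
    Relation.ReflTransGen (fun s t => s ∈ S ∧ t ∈ S ∧ (s ∩ t).Nonempty) s t) (x y : Rz S) :
    Joined x y := by
  obtain ⟨s, hs, hx⟩ := car_of x
  obtain ⟨t, ht, hy⟩ := car_of y
  have h := hc s hs t ht
  have key : ∀ u, Relation.ReflTransGen (fun s t => s ∈ S ∧ t ∈ S ∧ (s ∩ t).Nonempty) s u →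
      u ∈ S → ∀ z : Rz S, Car z.1 u → Joined x z := by
    intro u hu
    induction hu with
    | refl =>
      intro _ z hz
      exact joined_of_car hs hx hz
    | tail _ h2 ih =>
      intro hu z hz
      obtain ⟨v, hv⟩ := h2.2.2
      have hv1 := (Finset.mem_inter.1 hv).1
      have hv2 := (Finset.mem_inter.1 hv).2
      have h0 : ∃ s ∈ S, v ∈ s := ⟨_, hu, hv2⟩
      exact (ih h2.1 (pt v h0) (car_ee hv1)).trans (joined_of_car hu (car_ee hv2) hz)
  exact key t h ht y hy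

end conn

/-- brick TOP -/
theorem top : StmTop := by
  intro V _ S H _ hc hg x φ γ
  have hj := fun a : FundamentalGroupoid (Rz S) => joined hc x a.as
  let A : ∀ a : FundamentalGroupoid (Rz S), FundamentalGroupoid.mk x ⟶ a := fun a =>
    Path.Homotopic.Quotient.mk (hj a).some
  let ψ : (FundamentalGroupoid.mk x ⟶ FundamentalGroupoid.mk x) → H := fun γ => φ γ
  have hψ : ∀ γ δ : (FundamentalGroupoid.mk x ⟶ FundamentalGroupoid.mk x),
      ψ (CategoryTheory.CategoryStruct.comp γ δ) = ψ δ * ψ γ := fun γ δ => φ.map_mul' δ γ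
  obtain ⟨h, hh⟩ := hg (gg (S := S) A ψ) (fun s hs => gg_rel A ψ hψ hs)
  obtain ⟨α, hα⟩ := Path.Homotopic.Quotient.mk_surjective γ
  have h1 := all_paths A ψ hψ h hh α
  rw [inv_mul_cancel] at h1
  have h2 := eq_one_of_Ph A ψ hψ (Path.Homotopic.Quotient.mk α) h1
  rw [← hα]
  exact h2

end Pool.Agent.K3h18.LCM
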